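import Mathlib

namespace Pool.Agent.Results.MP_058057_co.Counter

open Finset

/-- Partitions of `n` into distinct parts (finite sets of positive integers with sum `n`), no part
divisible by `4`; zero for negative arguments. -/
def Q0 (n : ℤ) : ℤ :=
  if 0 ≤ n then (((Icc 1 n.toNat).powerset.filter
    fun s => ∑ p ∈ s, p = n.toNat ∧ ∀ p ∈ s, ¬ 4 ∣ p).card : ℤ) else 0

open Classical in
noncomputable def xi (n : ℕ) : ℤ :=
  if h : ∃ m, 1 ≤ m ∧ n = 4 * m ^ 2 then 2 * (-1) ^ h.choose else if n = 0 then 1 else 0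

def S (k n : ℕ) : ℤ :=
  ∑ j ∈ range (2 * k), (-1) ^ (j * (j + 1) / 2) * Q0 ((n : ℤ) - ((j * (j + 1) / 2 : ℕ) : ℤ))

theorem result : S 1 7 - xi 7 = 0 ∧ ¬ ∀ n k : ℕ, 1 ≤ k →
    0 ≤ (-1) ^ (k - 1) * (S k n - xi n) ∧
      (0 < (-1) ^ (k - 1) * (S k n - xi n) ↔ k * (2 * k + 1) ≤ n) := by
  have h1 : S 1 7 = 0 := by decide +kernel
  have h2 : xi 7 = 0 := by
    unfold xi
    rw [dif_neg, if_neg (by norm_num)]
    rintro ⟨m, -, h⟩
    omega
  refine ⟨by rw [h1, h2]; rfl, fun h => ?_⟩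
  have := (h 7 1 le_rfl).2.2 (by norm_num)
  rw [h1, h2] at this
  simp at this

end Pool.Agent.Results.MP_058057_co.Counter
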